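import Pool.Agent.helper67DE.YamB3

set_option autoImplicit false

namespace Pool.Agent.helper67DE

open Pool.Agent.H546R3.Yam

open MvPolynomial

noncomputable section

variable {K : Type} [Field K] [CharP K 2] {s : ℕ} [NeZero s]

/-- generator -/
def eta0 (K : Type) [Field K] (s : ℕ) : BB K s := mk (X 0)

omit [NeZero s] in
theorem uu_eq (j : ℕ) : uu tau0 (eta0 K s) j = ∑ i ∈ Finset.range j, mk (X ((i : ℕ) : ZMod s)) := by
  apply Finset.sum_congr rfl
  intro i _
  exact tau0_pow_X i

omit [NeZero s] in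
theorem del_X (hs : Odd s) (i j : ZMod s) :
    del hs i (mk (X j : PP0 K s)) = if j = i then 1 else 0 := by
  rw [del_mk]
  split_ifs with h
  · subst h
    rw [pderiv_X_self]
    exact map_one _
  · rw [pderiv_X_of_ne h]
    exact map_zero _

/-- sum of all variables -/
def SS0 (K : Type) [Field K] (s : ℕ) [NeZero s] : BB K s := ∑ j : ZMod s, mk (X j)

theorem sum_block : ∑ i ∈ Finset.range s, mk (X ((i : ℕ) : ZMod s)) = SS0 K s := by
  rw [SS0]
  symm
  apply Finset.sum_bij (fun (j : ZMod s) _ => j.val)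
  · intro j _
    exact Finset.mem_range.mpr (ZMod.val_lt j)
  · intro a _ b _ h
    exact ZMod.val_injective s h
  · intro i hi
    rw [Finset.mem_range] at hi
    exact ⟨(i : ZMod s), Finset.mem_univ _, ZMod.val_cast_of_lt hi⟩
  · intro j _
    rw [ZMod.natCast_zmod_val]

theorem uu_mul (t : ℕ) : uu tau0 (eta0 K s) (s * t) = t • SS0 K s := by
  induction t with
  | zero => simp [uu]
  | succ t ih =>
    rw [uu_eq, Nat.mul_succ, Finset.sum_range_add, ← uu_eq, ih, succ_nsmul, ← sum_block]
    congr 1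
    apply Finset.sum_congr rfl
    intro i _
    congr 2
    push_cast
    simp

theorem del_SS0 (hs : Odd s) (i : ZMod s) : del hs i (SS0 K s) = 1 := by
  rw [SS0, map_sum]
  simp only [del_X]
  rw [Finset.sum_ite_eq', if_pos (Finset.mem_univ _)]

theorem del_uu_zero (hs : Odd s) (J : ℕ) (h1 : 1 ≤ J) (h2 : J < s) :
    del hs 0 (uu tau0 (eta0 K s) J) = 1 := by
  rw [uu_eq, map_sum]
  simp only [del_X]
  rw [Finset.sum_eq_single 0]
  · simp
  · intro i hi hne
    rw [if_neg]
    intro h
    rw [Finset.mem_range] at hi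
    rw [ZMod.natCast_eq_zero_iff] at h
    have := Nat.le_of_dvd (Nat.pos_of_ne_zero hne) h
    omega
  · intro h
    exact absurd (Finset.mem_range.mpr (by omega)) h

theorem del_uu_last (hs : Odd s) (J : ℕ) (h2 : J < s) :
    del hs ((s - 1 : ℕ) : ZMod s) (uu tau0 (eta0 K s) J) = 0 := by
  rw [uu_eq, map_sum]
  simp only [del_X]
  apply Finset.sum_eq_zero
  intro i hi
  rw [Finset.mem_range] at hi
  rw [if_neg]
  intro h
  rw [ZMod.natCast_eq_natCast_iff'] at h
  rw [Nat.mod_eq_of_lt (by omega), Nat.mod_eq_of_lt (by omega)] at h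
  omega

omit [NeZero s] in
theorem del_uu_01 (hs : Odd s) (i : ZMod s) (J : ℕ) :
    del hs i (uu tau0 (eta0 K s) J) = 0 ∨ del hs i (uu tau0 (eta0 K s) J) = 1 := by
  induction J with
  | zero => left; simp [uu]
  | succ J ih =>
    have h : del hs i (uu tau0 (eta0 K s) (J + 1)) = del hs i (uu tau0 (eta0 K s) J) +
        (if ((J : ℕ) : ZMod s) = i then 1 else 0) := by
      rw [uu_eq, uu_eq, Finset.sum_range_succ, map_add, del_X]
    rw [h]
    split_ifs
    · rcases ih with h0 | h0
      · right; rw [h0, zero_add]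
      · left; rw [h0]; exact YD.add_self 1
    · rw [add_zero]; exact ih

theorem uu_expand (hs : Odd s) (J : ℕ) :
    uu tau0 (eta0 K s) J = ∑ i : ZMod s, del hs i (uu tau0 (eta0 K s) J) * mk (X i) := by
  induction J with
  | zero => simp [uu]
  | succ J ih =>
    have h : uu tau0 (eta0 K s) (J + 1) = uu tau0 (eta0 K s) J + mk (X ((J : ℕ) : ZMod s)) := by
      rw [uu_eq, uu_eq, Finset.sum_range_succ]
    rw [h]
    simp only [map_add, add_mul, Finset.sum_add_distrib]
    rw [← ih]
    congr 1
    simp only [del_X]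
    rw [Finset.sum_eq_single ((J : ℕ) : ZMod s)]
    · rw [if_pos rfl, one_mul]
    · intro b _ hb
      rw [if_neg (fun h => hb h.symm), zero_mul]
    · intro h
      exact absurd (Finset.mem_univ _) h

theorem acyB (hs : Odd s) (J c : ℕ) (y : BB K s) (hJ1 : 1 ≤ J) (hJ : J < s) (hy : pr0 c y = y)
    (hD : d0 y + (uu tau0 (eta0 K s) J + uu tau0 (eta0 K s) c) * y = 0) :
    ∃ w, prP pr0 c w = w ∧
      d0 w + (uu tau0 (eta0 K s) J + uu tau0 (eta0 K s) c) * w = y := by
  set v := uu tau0 (eta0 K s) J + uu tau0 (eta0 K s) c with hv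
  by_cases h : ∃ i, del hs i v = 1
  · obtain ⟨i, hi⟩ := h
    refine ⟨del hs i y, ?_, ?_⟩
    · cases c with
      | zero =>
        change 0 = del hs i y
        symm
        rw [← hy]
        obtain ⟨p, rfl⟩ := mk_surj y
        rw [pr0_mk, homogeneousComponent_zero, del_mk, pderiv_C]
        exact map_zero _
      | succ c =>
        change pr0 c (del hs i y) = _
        rw [pr_del, hy]
    · have h1 := congrArg (del hs i) hD
      rw [map_add, del_mul, del_d0, hi, map_zero] at h1
      linear_combination h1 - y * (YD.two_zero : (2 : BB K s) = 0)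
  · push Not at h
    have h0 : ∀ i, del hs i v = 0 := by
      intro i
      have h1 := h i
      rw [hv, map_add] at h1 ⊢
      rcases del_uu_01 (K := K) hs i J with a | a <;> rcases del_uu_01 (K := K) hs i c with b | b
      · rw [a, b, add_zero]
      · rw [a, b] at h1; exact absurd (zero_add 1) h1
      · rw [a, b] at h1; exact absurd (add_zero 1) h1
      · rw [a, b]; exact YD.add_self 1
    have hv0 : v = 0 := by
      rw [hv, uu_expand hs J, uu_expand hs c, ← Finset.sum_add_distrib]
      apply Finset.sum_eq_zero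
      intro i _
      rw [← add_mul, ← map_add, ← hv, h0, zero_mul]
    have hsc : ¬ s ∣ c := by
      rintro ⟨t, rfl⟩
      have a := h0 0
      have b := h0 ((s - 1 : ℕ) : ZMod s)
      rw [hv, map_add, uu_mul, map_nsmul, del_SS0, del_uu_zero hs J hJ1 hJ] at a
      rw [hv, map_add, uu_mul, map_nsmul, del_SS0, del_uu_last hs J hJ] at b
      rw [zero_add] at b
      rw [b, add_zero] at a
      have h2 : cf (0 : ZMod s →₀ ℕ) (1 : BB K s) = 1 := by
        have : (1 : BB K s) = mk 1 := (map_one _).symm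
        rw [this, cf_mk (fun i => Nat.zero_le _)]
        simp
      rw [a, map_zero] at h2
      exact zero_ne_one h2
    rw [hv0, zero_mul, add_zero] at hD
    obtain ⟨w, hw1, hw2⟩ := acy0 hs c hsc y hy hD
    exact ⟨w, hw1, by rw [hv0, zero_mul, add_zero, hw2]⟩

/-- the data for odd `s` -/
def YDs (hs : Odd s) : YD K s (BB K s) where
  D := s * s
  pr := pr0
  pr_same := pr0_same
  pr_ne := pr0_ne
  pr_big := fun i x h => pr0_big i x h
  pr_sum := pr0_sum
  pr_mul := pr0_mul
  π0 := pi0
  π0_alg := fun t => by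
    change pi0 (mk (C t)) = t
    rw [pi0_mk]; simp
  pr_zero := pr0_zero
  π0_pr := pi0_pr
  τ := tau0
  pr_τ := pr0_tau0
  η := eta0 K s
  pr_η := by
    rw [eta0, pr0_mk, homogeneousComponent_of_mem (n := 1) (isHomogeneous_X _ _), if_pos rfl]
  d := d0
  d_mul := d0_mul
  dd := d0_d0
  d_pr := d0_pr
  d_pr0 := d0_pr0
  d_τ := d0_tau0
  d_η := by
    rw [eta0, d0_mk, dP_X]
    exact map_mul _ _ _
  u_per := by
    refine ⟨s * 2 - 1, ?_⟩
    have h1 : s * 2 - 1 + 1 = s * 2 := by
      have := NeZero.pos s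
      omega
    rw [h1, uu_mul, two_nsmul]
    exact YD.add_self _
  acy := fun J c y h1 h2 h3 h4 => acyB hs J c y h1 h2 h3 h4
  μ := cf (top s)
  frob := frob0

theorem final (K : Type) [Field K] [CharP K 2] : ∀ n : ℕ, ∃ (s : ℕ) (_ : n ≤ s) (B : Type) (_ : CommRing B)
    (_ : CharP B 2) (_ : Algebra K B) (_ : FiniteDimensional K B), Nonempty (YD K s B) := by
  intro n
  have : NeZero (2 * n + 1) := ⟨by omega⟩
  exact ⟨2 * n + 1, by omega, BB K (2 * n + 1), inferInstance, inferInstance, inferInstance, finBB,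
    ⟨YDs ⟨n, rfl⟩⟩⟩

end

end Pool.Agent.helper67DE
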