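import Pool.Agent.helper67DE.YamMain

set_option autoImplicit false

namespace Pool.Agent.helper67DE

open Pool.Agent.H546R3.Yam

open MvPolynomial

noncomputable section

variable {K : Type} [Field K] {s : ℕ}

/-- polynomial ring in `s` cyclically indexed variables -/
abbrev PP0 (K : Type) [Field K] (s : ℕ) : Type := MvPolynomial (ZMod s) K

/-- exponents bounded by `s` -/
def box (m : ZMod s →₀ ℕ) : Prop := ∀ i, m i ≤ s

/-- ideal of polynomials with no monomial in the box -/
def II (K : Type) [Field K] (s : ℕ) : Ideal (PP0 K s) where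
  carrier := {p | ∀ m : ZMod s →₀ ℕ, box m → coeff m p = 0}
  add_mem' := by
    intro p q hp hq m hm
    rw [coeff_add, hp m hm, hq m hm, add_zero]
  zero_mem' := by
    intro m _
    exact coeff_zero m
  smul_mem' := by
    intro c p hp m hm
    rw [smul_eq_mul, coeff_mul]
    apply Finset.sum_eq_zero
    intro x hx
    have hx' : x.1 + x.2 = m := Finset.HasAntidiagonal.mem_antidiagonal.mp hx
    rw [hp x.2 (fun i => by rw [← hx'] at hm; exact le_trans (Nat.le_add_left _ _) (hm i)), mul_zero]

theorem mem_II (p : PP0 K s) : p ∈ II K s ↔ ∀ m : ZMod s →₀ ℕ, box m → coeff m p = 0 := Iff.rfl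

/-- the truncated polynomial ring -/
abbrev BB (K : Type) [Field K] (s : ℕ) : Type := PP0 K s ⧸ II K s

/-- quotient map -/
abbrev mk (p : PP0 K s) : BB K s := Ideal.Quotient.mk (II K s) p

theorem mk_eq_zero (p : PP0 K s) : mk p = 0 ↔ ∀ m : ZMod s →₀ ℕ, box m → coeff m p = 0 := by
  rw [mk, Ideal.Quotient.eq_zero_iff_mem, mem_II]

theorem mk_surj (x : BB K s) : ∃ p, mk p = x := Ideal.Quotient.mk_surjective x

/-- descend a linear map -/
def desc (L : PP0 K s →ₗ[K] PP0 K s) (h : ∀ p ∈ II K s, L p ∈ II K s) : BB K s →ₗ[K] BB K s :=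
  (Submodule.Quotient.restrictScalarsEquiv K (II K s)).toLinearMap.comp
    ((Submodule.mapQ ((II K s).restrictScalars K) ((II K s).restrictScalars K) L h).comp
      (Submodule.Quotient.restrictScalarsEquiv K (II K s)).symm.toLinearMap)

theorem desc_mk (L : PP0 K s →ₗ[K] PP0 K s) (h : ∀ p ∈ II K s, L p ∈ II K s) (p : PP0 K s) :
    desc L h (mk p) = mk (L p) := rfl

open Classical in
/-- coefficient functional -/
def cf (m : ZMod s →₀ ℕ) : BB K s →ₗ[K] K :=
  (Submodule.liftQ ((II K s).restrictScalars K)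
    (if box m then lcoeff K m else 0) (by
      intro p hp
      by_cases hm : box m
      · rw [if_pos hm]
        exact hp m hm
      · rw [if_neg hm]
        rfl)).comp
      (Submodule.Quotient.restrictScalarsEquiv K (II K s)).symm.toLinearMap

open Classical in
theorem cf_mk {m : ZMod s →₀ ℕ} (hm : box m) (p : PP0 K s) : cf m (mk p) = coeff m p := by
  have : cf m (mk p) = (if box m then lcoeff K m else 0) p := rfl
  rw [this, if_pos hm]
  rfl

theorem eq_zero_of_cf (x : BB K s) (h : ∀ m, box m → cf m x = 0) : x = 0 := by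
  obtain ⟨p, rfl⟩ := mk_surj x
  rw [mk_eq_zero]
  intro m hm
  rw [← cf_mk hm]
  exact h m hm

theorem mem_of_mono (L : PP0 K s →ₗ[K] PP0 K s)
    (h : ∀ m : ZMod s →₀ ℕ, ¬ box m → L (monomial m 1) ∈ II K s) : ∀ p ∈ II K s, L p ∈ II K s := by
  intro p hp
  rw [p.as_sum, map_sum]
  apply Ideal.sum_mem
  intro m hm
  have h1 : monomial m (coeff m p) = (coeff m p) • (monomial m (1 : K)) := by
    rw [smul_monomial, smul_eq_mul, mul_one]
  rw [h1, map_smul]
  have h2 : ¬ box m := by
    intro hb
    rw [mem_support_iff] at hm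
    exact hm (hp m hb)
  exact (II K s).smul_of_tower_mem _ (h m h2)

theorem mono_mem {m : ZMod s →₀ ℕ} (h : ¬ box m) (a : K) : monomial m a ∈ II K s := by
  intro m' hm'
  rw [coeff_monomial, if_neg]
  rintro rfl
  exact h hm'

/-- grading projections -/
def pr0 (c : ℕ) : BB K s →ₗ[K] BB K s := desc (homogeneousComponent c) (by
  intro p hp m hm
  rw [coeff_homogeneousComponent]
  split_ifs
  · exact hp m hm
  · rfl)

theorem pr0_mk (c : ℕ) (p : PP0 K s) : pr0 c (mk p) = mk (homogeneousComponent c p) := rfl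

theorem cf_pr0 {m : ZMod s →₀ ℕ} (hm : box m) (c : ℕ) (x : BB K s) :
    cf m (pr0 c x) = if m.degree = c then cf m x else 0 := by
  obtain ⟨p, rfl⟩ := mk_surj x
  rw [pr0_mk, cf_mk hm, coeff_homogeneousComponent, cf_mk hm]

theorem pr0_same (i : ℕ) (x : BB K s) : pr0 i (pr0 i x) = pr0 i x := by
  obtain ⟨p, rfl⟩ := mk_surj x
  rw [pr0_mk, pr0_mk, homogeneousComponent_of_mem (homogeneousComponent_mem i p), if_pos rfl]

theorem pr0_ne (i j : ℕ) (x : BB K s) (h : i ≠ j) : pr0 i (pr0 j x) = 0 := by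
  obtain ⟨p, rfl⟩ := mk_surj x
  rw [pr0_mk, pr0_mk, homogeneousComponent_of_mem (homogeneousComponent_mem j p), if_neg h]
  exact map_zero _

theorem pr0_mul (i j : ℕ) (x y : BB K s) (hx : pr0 i x = x) (hy : pr0 j y = y) :
    pr0 (i + j) (x * y) = x * y := by
  obtain ⟨p, rfl⟩ := mk_surj x
  obtain ⟨q, rfl⟩ := mk_surj y
  rw [← hx, ← hy, pr0_mk, pr0_mk, ← map_mul, pr0_mk]
  rw [homogeneousComponent_of_mem (n := i + j), if_pos rfl]
  exact (homogeneousComponent_isHomogeneous i p).mul (homogeneousComponent_isHomogeneous j q)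

variable [NeZero s]

theorem degree_le {m : ZMod s →₀ ℕ} (hm : box m) : m.degree ≤ s * s := by
  rw [Finsupp.degree_eq_sum]
  calc ∑ i, m i ≤ ∑ _i : ZMod s, s := Finset.sum_le_sum (fun i _ => hm i)
    _ = s * s := by rw [Finset.sum_const, Finset.card_univ, ZMod.card, smul_eq_mul]

theorem pr0_big (i : ℕ) (x : BB K s) (h : s * s < i) : pr0 i x = 0 := by
  apply eq_zero_of_cf
  intro m hm
  rw [cf_pr0 hm, if_neg]
  have := degree_le hm
  omega

theorem pr0_sum (x : BB K s) : ∑ c ∈ Finset.range (s * s + 1), pr0 c x = x := by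
  rw [← sub_eq_zero]
  apply eq_zero_of_cf
  intro m hm
  rw [map_sub, map_sum]
  simp only [cf_pr0 hm]
  rw [Finset.sum_ite_eq, if_pos, sub_self]
  rw [Finset.mem_range]
  have := degree_le hm
  omega

instance finBB : FiniteDimensional K (BB K s) := by
  let f : BB K s →ₗ[K] ((ZMod s → Fin (s + 1)) → K) :=
    { toFun := fun x α => cf (Finsupp.equivFunOnFinite.symm (fun i => (α i : ℕ))) x
      map_add' := by intro x y; funext α; simp
      map_smul' := by intro c x; funext α; simp }
  apply FiniteDimensional.of_injective f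
  rw [injective_iff_map_eq_zero]
  intro x hx
  apply eq_zero_of_cf
  intro m hm
  have := congrFun hx (fun i => ⟨m i, Nat.lt_succ_of_le (hm i)⟩)
  have h2 : (Finsupp.equivFunOnFinite.symm (fun i => ((⟨m i, Nat.lt_succ_of_le (hm i)⟩ : Fin (s+1)) : ℕ))) = m := by
    ext i
    rfl
  change cf _ x = 0 at this
  rwa [h2] at this

omit [NeZero s] in
theorem one_ne_BB : (1 : BB K s) ≠ 0 := by
  intro h
  have h1 : (mk (1 : PP0 K s)) = 0 := h
  rw [mk_eq_zero] at h1
  have h2 := h1 0 (fun i => Nat.zero_le _)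
  simp at h2

instance : Nontrivial (BB K s) := ⟨⟨1, 0, one_ne_BB⟩⟩

instance [CharP K 2] : CharP (BB K s) 2 :=
  charP_of_injective_algebraMap (algebraMap K (BB K s)).injective 2

/-- augmentation -/
def pi0 : BB K s →+* K := Ideal.Quotient.lift (II K s) constantCoeff (by
  intro p hp
  exact hp 0 (fun i => Nat.zero_le _))

omit [NeZero s] in
theorem pi0_mk (p : PP0 K s) : pi0 (mk p) = coeff 0 p := rfl

theorem pr0_zero (x : BB K s) : pr0 0 x = algebraMap K (BB K s) (pi0 x) := by
  obtain ⟨p, rfl⟩ := mk_surj x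
  rw [pr0_mk, homogeneousComponent_zero, pi0_mk]
  rfl

theorem pi0_pr (c : ℕ) (x : BB K s) : pi0 (pr0 (c + 1) x) = 0 := by
  obtain ⟨p, rfl⟩ := mk_surj x
  rw [pr0_mk, pi0_mk, coeff_homogeneousComponent, if_neg]
  simp

/-- the Frobenius form -/
def top (s : ℕ) [NeZero s] : ZMod s →₀ ℕ := Finsupp.equivFunOnFinite.symm (fun _ => s)

theorem top_apply (i : ZMod s) : top s i = s := rfl

theorem box_top : box (top s) := fun i => le_of_eq (top_apply i)

theorem degree_top : (top s).degree = s * s := by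
  rw [Finsupp.degree_eq_sum]
  simp only [top_apply]
  rw [Finset.sum_const, Finset.card_univ, ZMod.card, smul_eq_mul]

theorem frob0 (c : ℕ) (hc : c ≤ s * s) (y : BB K s)
    (h : ∀ a, pr0 c a = a → cf (top s) (a * y) = 0) : pr0 (s * s - c) y = 0 := by
  apply eq_zero_of_cf
  intro m hm
  rw [cf_pr0 hm]
  split_ifs with h1
  · have hle : m ≤ top s := fun i => hm i
    have hdeg : (top s - m).degree = c := by
      have h2 : (top s - m).degree + m.degree = (top s).degree := by
        rw [← map_add, tsub_add_cancel_of_le hle]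
      rw [degree_top, h1] at h2
      omega
    have h3 := h (mk (monomial (top s - m) 1)) (by
      rw [pr0_mk, homogeneousComponent_of_mem (n := c) (isHomogeneous_monomial _ hdeg), if_pos rfl])
    obtain ⟨p, rfl⟩ := mk_surj y
    rw [← map_mul, cf_mk box_top, coeff_monomial_mul', if_pos (by
      intro i; exact Nat.sub_le _ _), one_mul] at h3
    rw [cf_mk hm]
    rw [show top s - (top s - m) = m from tsub_tsub_cancel_of_le hle] at h3
    exact h3
  · rfl

end

end Pool.Agent.helper67DE
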