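import Pool.Agent.helper67DE.YamB2

set_option autoImplicit false

namespace Pool.Agent.helper67DE

open Pool.Agent.H546R3.Yam

open MvPolynomial

noncomputable section

variable {K : Type} [Field K] [CharP K 2] {s : ℕ}

/-- homotopy on polynomials -/
def HP (i : ZMod s) : PP0 K s →ₗ[K] PP0 K s :=
  (basisMonomials (ZMod s) K).constr K (fun m =>
    if Even (m i) ∧ m i ≠ 0 ∧ m i ≤ s then monomial (m - Finsupp.single i 1) 1 else 0)

theorem HP_mono (i : ZMod s) (m : ZMod s →₀ ℕ) : HP i (monomial m (1 : K)) =
    if Even (m i) ∧ m i ≠ 0 ∧ m i ≤ s then monomial (m - Finsupp.single i 1) 1 else 0 := by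
  have := (basisMonomials (ZMod s) K).constr_basis K (fun m : ZMod s →₀ ℕ =>
    if Even (m i) ∧ m i ≠ 0 ∧ m i ≤ s then
      (monomial (m - Finsupp.single i 1) 1 : PP0 K s) else 0) m
  rwa [coe_basisMonomials] at this

/-- projection on polynomials -/
def QP (i : ZMod s) : PP0 K s →ₗ[K] PP0 K s :=
  (basisMonomials (ZMod s) K).constr K (fun m =>
    if m i ≠ 0 ∧ m i < s then monomial m 1 else 0)

theorem QP_mono (i : ZMod s) (m : ZMod s →₀ ℕ) : QP i (monomial m (1 : K)) =
    if m i ≠ 0 ∧ m i < s then monomial m 1 else 0 := by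
  have := (basisMonomials (ZMod s) K).constr_basis K (fun m : ZMod s →₀ ℕ =>
    if m i ≠ 0 ∧ m i < s then
      (monomial m 1 : PP0 K s) else 0) m
  rwa [coe_basisMonomials] at this

theorem coeff_QP (i : ZMod s) (m : ZMod s →₀ ℕ) (p : PP0 K s) :
    coeff m (QP i p) = if m i ≠ 0 ∧ m i < s then coeff m p else 0 := by
  induction p using MvPolynomial.induction_on' with
  | monomial m' a =>
    have h1 : monomial m' a = a • monomial m' (1 : K) := by
      rw [smul_monomial, smul_eq_mul, mul_one]
    rw [h1, map_smul, QP_mono, coeff_smul, coeff_smul]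
    by_cases h : m' = m
    · subst h
      by_cases h2 : m' i ≠ 0 ∧ m' i < s
      · rw [if_pos h2, if_pos h2]
      · rw [if_neg h2, if_neg h2, coeff_zero, smul_zero]
    · have h3 : coeff m (monomial m' (1 : K)) = 0 := by rw [coeff_monomial, if_neg h]
      rw [h3, smul_zero, ite_self]
      split_ifs
      · rw [h3, smul_zero]
      · rw [coeff_zero, smul_zero]
  | add p q hp hq =>
    rw [map_add, coeff_add, coeff_add, hp, hq]
    split_ifs <;> simp

theorem HP_mem (i : ZMod s) : ∀ p ∈ II K s, HP i p ∈ II K s := by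
  apply mem_of_mono
  intro m hm
  rw [HP_mono]
  split_ifs with h
  · apply mono_mem
    intro h2
    apply hm
    intro j
    by_cases hj : j = i
    · subst hj; exact h.2.2
    · have := h2 j
      rw [Finsupp.tsub_apply, Finsupp.single_eq_of_ne hj] at this
      omega
  · exact Ideal.zero_mem _

theorem QP_mem (i : ZMod s) : ∀ p ∈ II K s, QP i p ∈ II K s := by
  intro p hp m hm
  rw [coeff_QP, hp m hm]
  split_ifs <;> rfl

variable [NeZero s]

theorem homotopy_mono (hs : Odd s) (i : ZMod s) (m : ZMod s →₀ ℕ) :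
    dP (HP i (monomial m 1)) + HP i (dP (monomial m 1)) = QP i (monomial m (1 : K)) := by
  rw [dP_monomial, map_sum]
  have e1 : ∀ j ∈ (Finset.univ : Finset (ZMod s)),
      HP i (monomial (m + Finsupp.single j 1) ((m j : ℕ) : K)) =
      ((m j : ℕ) : K) • (if Even ((m + Finsupp.single j 1 : ZMod s →₀ ℕ) i) ∧
        (m + Finsupp.single j 1 : ZMod s →₀ ℕ) i ≠ 0 ∧
        (m + Finsupp.single j 1 : ZMod s →₀ ℕ) i ≤ s then
        (monomial (m + Finsupp.single j 1 - Finsupp.single i 1) 1 : PP0 K s) else 0) := by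
    intro j _
    rw [← HP_mono, ← map_smul, smul_monomial, smul_eq_mul, mul_one]
  rw [Finset.sum_congr rfl e1, HP_mono]
  have e2 : dP (if Even (m i) ∧ m i ≠ 0 ∧ m i ≤ s then
      (monomial (m - Finsupp.single i 1) 1 : PP0 K s) else 0) =
      ∑ j, (((m - Finsupp.single i 1 : ZMod s →₀ ℕ) j : ℕ) : K) •
        (if Even (m i) ∧ m i ≠ 0 ∧ m i ≤ s then
          (monomial (m - Finsupp.single i 1 + Finsupp.single j 1) 1 : PP0 K s) else 0) := by
    split_ifs with h
    · rw [dP_monomial]
      apply Finset.sum_congr rfl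
      intro j _
      rw [smul_monomial, smul_eq_mul, mul_one]
    · simp
  rw [e2, ← Finset.sum_add_distrib, QP_mono]
  have e3 : ∀ j ∈ (Finset.univ : Finset (ZMod s)), ((((m - Finsupp.single i 1 : ZMod s →₀ ℕ) j : ℕ) : K) •
        (if Even (m i) ∧ m i ≠ 0 ∧ m i ≤ s then
          (monomial (m - Finsupp.single i 1 + Finsupp.single j 1) 1 : PP0 K s) else 0) +
      ((m j : ℕ) : K) • (if Even ((m + Finsupp.single j 1 : ZMod s →₀ ℕ) i) ∧
        (m + Finsupp.single j 1 : ZMod s →₀ ℕ) i ≠ 0 ∧
        (m + Finsupp.single j 1 : ZMod s →₀ ℕ) i ≤ s then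
        (monomial (m + Finsupp.single j 1 - Finsupp.single i 1) 1 : PP0 K s) else 0)) =
      if j = i then (if m i ≠ 0 ∧ m i < s then monomial m 1 else 0) else 0 := by
    intro j _
    by_cases hj : j = i
    · subst hj
      rw [if_pos rfl, add_tsub_cancel_right, Finsupp.tsub_apply, Finsupp.add_apply,
        Finsupp.single_eq_same]
      obtain ⟨t, ht⟩ := hs
      rcases Nat.even_or_odd (m j) with he | ho
      · have h0 : ((m j : ℕ) : K) = 0 := by
          rw [CharP.cast_eq_zero_iff K 2]; exact he.two_dvd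
        rw [h0, zero_smul, add_zero]
        by_cases h : m j ≠ 0 ∧ m j < s
        · rw [if_pos h, if_pos ⟨he, h.1, by omega⟩]
          have h1 : ((m j - 1 : ℕ) : K) = 1 := by
            have : Odd (m j - 1) := by
              obtain ⟨r, hr⟩ := he
              exact ⟨r - 1, by omega⟩
            obtain ⟨r, hr⟩ := this
            rw [hr]
            push_cast
            have : (2 : K) = 0 := CharTwo.two_eq_zero
            rw [this]; ring
          rw [h1, one_smul, tsub_add_cancel_of_le]
          rw [Finsupp.single_le_iff]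
          omega
        · rw [if_neg h, if_neg]
          · simp
          · rintro ⟨h1, h2, h3⟩
            apply h
            refine ⟨h2, ?_⟩
            obtain ⟨r, hr⟩ := he
            omega
      · have hne : ¬ (Even (m j) ∧ m j ≠ 0 ∧ m j ≤ s) := by
          rintro ⟨h1, _⟩
          exact (Nat.not_even_iff_odd.mpr ho) h1
        rw [if_neg hne, smul_zero, zero_add]
        have h1 : ((m j : ℕ) : K) = 1 := by
          obtain ⟨r, hr⟩ := ho
          rw [hr]
          push_cast
          have : (2 : K) = 0 := CharTwo.two_eq_zero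
          rw [this]; ring
        rw [h1, one_smul]
        by_cases h : m j ≠ 0 ∧ m j < s
        · rw [if_pos h, if_pos ⟨ho.add_one, by omega, by omega⟩]
        · rw [if_neg h, if_neg]
          rintro ⟨h2, h3, h4⟩
          apply h
          refine ⟨?_, by omega⟩
          obtain ⟨r, hr⟩ := ho
          omega
    · have hij : i ≠ j := fun h => hj h.symm
      rw [if_neg hj, Finsupp.tsub_apply, Finsupp.add_apply, Finsupp.single_eq_of_ne hj,
        Finsupp.single_eq_of_ne hij, tsub_zero, add_zero]
      by_cases h : Even (m i) ∧ m i ≠ 0 ∧ m i ≤ s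
      · rw [if_pos h, if_pos h]
        have hle : Finsupp.single i 1 ≤ m := by
          rw [Finsupp.single_le_iff]
          omega
        rw [tsub_add_eq_add_tsub hle, ← two_smul (PP0 K s)]
        rw [twoP, zero_smul]
      · rw [if_neg h, if_neg h]
        simp
  rw [Finset.sum_congr rfl e3, Finset.sum_ite_eq', if_pos (Finset.mem_univ _)]

theorem homotopy_P (hs : Odd s) (i : ZMod s) (p : PP0 K s) :
    dP (HP i p) + HP i (dP p) = QP i p := by
  induction p using MvPolynomial.induction_on' with
  | monomial m a =>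
    have h1 : monomial m a = a • monomial m (1 : K) := by
      rw [smul_monomial, smul_eq_mul, mul_one]
    rw [h1, map_smul, Derivation.map_smul, Derivation.map_smul, map_smul, map_smul, ← smul_add,
      homotopy_mono hs]
  | add p q hp hq =>
    rw [map_add, map_add, map_add, map_add, map_add, ← hp, ← hq]
    abel

/-- homotopy on `B` -/
def hB (i : ZMod s) : BB K s →ₗ[K] BB K s := desc (HP i) (HP_mem i)

/-- projection on `B` -/
def qB (i : ZMod s) : BB K s →ₗ[K] BB K s := desc (QP i) (QP_mem i)

theorem homotopy_B (hs : Odd s) (i : ZMod s) (x : BB K s) :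
    d0 (hB i x) + hB i (d0 x) = qB i x := by
  obtain ⟨p, rfl⟩ := mk_surj x
  change mk (dP (HP i p)) + mk (HP i (dP p)) = mk (QP i p)
  rw [← homotopy_P hs]
  exact (map_add (Ideal.Quotient.mk (II K s)) _ _).symm

theorem cf_qB {m : ZMod s →₀ ℕ} (hm : box m) (i : ZMod s) (x : BB K s) :
    cf m (qB i x) = if m i ≠ 0 ∧ m i < s then cf m x else 0 := by
  obtain ⟨p, rfl⟩ := mk_surj x
  change cf m (mk (QP i p)) = _
  rw [cf_mk hm, cf_mk hm, coeff_QP]

theorem chainB (hs : Odd s) (y : BB K s) (hy : d0 y = 0) (L : List (ZMod s)) :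
    ∃ y' w, d0 y' = 0 ∧ y = y' + d0 w ∧
      ∀ m, box m → cf m y' = if (∀ i ∈ L, ¬ (m i ≠ 0 ∧ m i < s)) then cf m y else 0 := by
  induction L with
  | nil =>
    refine ⟨y, 0, hy, by simp, ?_⟩
    intro m _
    rw [if_pos]
    simp
  | cons i L ih =>
    obtain ⟨y', w, h1, h2, h3⟩ := ih
    have hq : qB i y' = d0 (hB i y') := by
      rw [← homotopy_B hs, h1, map_zero, add_zero]
    refine ⟨y' + qB i y', w + hB i y', ?_, ?_, ?_⟩
    · rw [map_add, h1, hq, d0_d0, add_zero]
    · rw [hq, map_add, h2]
      linear_combination (-(d0 (hB i y'))) * (YD.two_zero : (2 : BB K s) = 0)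
    · intro m hm
      rw [map_add, cf_qB hm, h3 m hm]
      by_cases hi : m i ≠ 0 ∧ m i < s
      · rw [if_pos hi]
        have hneg : ¬ (∀ j ∈ i :: L, ¬ (m j ≠ 0 ∧ m j < s)) := by
          intro h
          exact h i (by simp) hi
        rw [if_neg hneg]
        exact CharTwo.add_self_eq_zero _
      · rw [if_neg hi, add_zero]
        by_cases hL : ∀ j ∈ L, ¬ (m j ≠ 0 ∧ m j < s)
        · rw [if_pos hL, if_pos]
          intro j hj
          rcases List.mem_cons.mp hj with rfl | hj
          · exact hi
          · exact hL j hj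
        · rw [if_neg hL, if_neg]
          intro h
          apply hL
          intro j hj
          exact h j (List.mem_cons_of_mem _ hj)

theorem acy0 (hs : Odd s) (c : ℕ) (hc : ¬ s ∣ c) (y : BB K s) (hyc : pr0 c y = y) (hy : d0 y = 0) :
    ∃ w, prP pr0 c w = w ∧ d0 w = y := by
  obtain ⟨y', w, h1, h2, h3⟩ := chainB hs y hy (Finset.univ : Finset (ZMod s)).toList
  have hy' : y' = 0 := by
    apply eq_zero_of_cf
    intro m hm
    rw [h3 m hm]
    split_ifs with h
    · rw [← hyc, cf_pr0 hm, if_neg]
      intro hdeg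
      apply hc
      rw [← hdeg, Finsupp.degree_eq_sum]
      apply Finset.dvd_sum
      intro i _
      have h4 := h i (by simp)
      have h5 := hm i
      by_cases h6 : m i = 0
      · rw [h6]; exact dvd_zero _
      · have h7 : m i = s := by
          by_contra h8
          exact h4 ⟨h6, by omega⟩
        rw [h7]
    · rfl
  rw [hy', zero_add] at h2
  cases c with
  | zero => exact absurd (dvd_zero s) hc
  | succ c =>
    refine ⟨pr0 c w, pr0_same c w, ?_⟩
    rw [← d0_pr, ← h2, hyc]

end

end Pool.Agent.helper67DE
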