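import Pool.Agent.helper67DE.YamR2

set_option autoImplicit false

namespace Pool.Agent.helper67DE

open Pool.Agent.H546R3.Yam

section Quo

variable {K : Type} [Field K] {R : Type} [Ring R] (b : R)

/-- the cyclic module `R / R b` -/
abbrev Quo : Type := R ⧸ (Submodule.span R {b})

/-- generator of `R / R b` -/
def q0 : Quo b := Submodule.Quotient.mk 1

theorem smul_q0 (r : R) : r • q0 b = Submodule.Quotient.mk r := by
  rw [q0, ← Submodule.Quotient.mk_smul, smul_eq_mul, mul_one]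

theorem hq0 (x : Quo b) : ∃ r : R, x = r • q0 b := by
  obtain ⟨r, rfl⟩ := Submodule.Quotient.mk_surjective _ x
  exact ⟨r, (smul_q0 b r).symm⟩

theorem hkerq (r : R) : r • q0 b = 0 ↔ ∃ z, r = z * b := by
  rw [smul_q0, Submodule.Quotient.mk_eq_zero, Submodule.mem_span_singleton]
  constructor
  · rintro ⟨z, hz⟩; exact ⟨z, hz.symm⟩
  · rintro ⟨z, hz⟩; exact ⟨z, hz.symm⟩

/-- augmentation on `R / R b` -/
def qaug (π : R →+* K) (hπ : π b = 0) : Quo b →+ K :=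
  QuotientAddGroup.lift (Submodule.span R {b}).toAddSubgroup π.toAddMonoidHom (by
    intro r hr
    obtain ⟨z, rfl⟩ := Submodule.mem_span_singleton.mp hr
    change π (z * b) = 0
    rw [map_mul, hπ, mul_zero])

theorem qaug_smul (π : R →+* K) (hπ : π b = 0) (r : R) :
    qaug b π hπ (r • q0 b) = π r := by
  rw [smul_q0]
  rfl

variable [Algebra K R]

instance finQuo [FiniteDimensional K R] : FiniteDimensional K (Quo b) :=
  inferInstance

end Quo

section Abs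

variable {K : Type} [Field K] {R : Type} [Ring R] [Algebra K R] [FiniteDimensional K R]

theorem finA_abs (b : R) : FiniteDimensional K (Module.End R (R × Quo b)) := by
  let f : Module.End R (R × Quo b) →ₗ[K] ((R × Quo b) →ₗ[K] (R × Quo b)) :=
    { toFun := fun g => g.restrictScalars K
      map_add' := by intro x y; rfl
      map_smul' := by intro c x; rfl }
  apply FiniteDimensional.of_injective f
  intro x y h
  apply LinearMap.ext
  intro g
  exact LinearMap.congr_fun h g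

omit [Algebra K R] [FiniteDimensional K R] in
theorem hE_abs (a : ℕ → R) (s : ℕ)
    (haa : ∀ j r, a (j + 1) * r = 0 ↔ ∃ r', r = a j * r')
    (hii : ∀ j, j + 1 < s → ∀ y z : R, a (j + 1) * y = z * a 0 → ∃ p q : R, y = a j * p + q * a 0)
    (j : ℕ) (hj : j + 1 < s) : EE a (Quo (a 0)) j := by
  rintro ⟨r, x⟩ h
  have h1 : a (j + 1) * r = 0 := congrArg Prod.fst h
  have h2 : a (j + 1) • x = 0 := congrArg Prod.snd h
  obtain ⟨r', hr'⟩ := (haa j r).mp h1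
  obtain ⟨y, rfl⟩ := hq0 _ x
  rw [← mul_smul] at h2
  obtain ⟨z, hz⟩ := (hkerq _ _).mp h2
  obtain ⟨p, q, hpq⟩ := hii j hj y z hz
  refine ⟨(r', p • q0 (a 0)), ?_⟩
  apply Prod.ext
  · exact hr'
  · change y • q0 (a 0) = a j • (p • q0 (a 0))
    rw [hpq, add_smul, mul_smul q, (hkerq (a 0) (a 0)).mpr ⟨1, by rw [one_mul]⟩, smul_zero,
      add_zero, mul_smul]

theorem main_abs (a : ℕ → R) (s : ℕ) (lam : R →ₗ[K] K)
    (hlam : ∀ r, (∀ r', lam (r' * r) = 0) → r = 0)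
    (haa : ∀ j r, a (j + 1) * r = 0 ↔ ∃ r', r = a j * r')
    (hii : ∀ j, j + 1 < s → ∀ y z : R, a (j + 1) * y = z * a 0 → ∃ p q : R, y = a j * p + q * a 0)
    (aug : R →+* K) (haug : ∀ c : K, aug (algebraMap K R c) = c) (aug_a : ∀ j, aug (a j) = 0)
    (F : ℕ → AddSubgroup R) (hF0 : ∀ r, r ∈ F 0) (hF1 : ∀ r, aug r = 0 → r ∈ F 1)
    (hFmul : ∀ i j r s, r ∈ F i → s ∈ F j → r * s ∈ F (i + j))
    (hFanti : ∀ i, F (i + 1) ≤ F i) (n : ℕ) (hFn : ∀ r ∈ F n, r = 0)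
    (N : ℕ) (hN : a (N + 1) = a 0) :
    ∃ (A : Type) (_ : Ring A) (_ : Algebra K A)
    (_ : FiniteDimensional K A) (S : Fin 2 → ModuleCat.{0} A),
    (∀ i, IsSimpleModule A (S i)) ∧ (∀ i j, Nonempty (S i ≃ₗ[A] S j) → i = j) ∧
    (∀ M : ModuleCat.{0} A, IsSimpleModule A M → ∃ i, Nonempty (M ≃ₗ[A] S i)) ∧
    (∀ m, m ≤ s + 1 → PP A m) ∧ ¬ (∀ m, PP A m) := by
  have haa' : ∀ j, a (j + 1) * a j = 0 := fun j =>
    (haa j (a j)).mpr ⟨1, by rw [mul_one]⟩
  have hc : ∀ c : R, a 0 * c = 0 → aug c = 0 := by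
    intro c h
    rw [← hN] at h
    obtain ⟨r', rfl⟩ := (haa N c).mp h
    rw [map_mul, aug_a, zero_mul]
  have ha0 : a 0 • q0 (a 0) = 0 := (hkerq (a 0) (a 0)).mpr ⟨1, by rw [one_mul]⟩
  refine ⟨Module.End R (R × Quo (a 0)), inferInstance, inferInstance, finA_abs (a 0),
    SS (a 0) (q0 (a 0)) aug (qaug (a 0) aug (aug_a 0)) (hq0 _) (qaug_smul _ _ _) ha0 hc,
    ?_, ?_, ?_, ?_, ?_⟩
  · exact SS_simple (a 0) (q0 (a 0)) aug haug (qaug (a 0) aug (aug_a 0)) (hq0 _)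
      (qaug_smul _ _ _) ha0 hc
  · exact SS_inj (a 0) (q0 (a 0)) aug (qaug (a 0) aug (aug_a 0)) (hq0 _) (qaug_smul _ _ _) ha0 hc
  · exact SS_complete (a 0) (q0 (a 0)) aug haug (qaug (a 0) aug (aug_a 0)) (hq0 _)
      (qaug_smul _ _ _) ha0 hc F hF0 hF1 hFmul hFanti n hFn
  · intro m hm
    exact PP_pos a (q0 (a 0)) lam hlam haa' (hq0 _) (hkerq _) m
      (fun j hj => hE_abs a s haa hii j (by omega))
  · exact not_PP a (q0 (a 0)) lam hlam haa (hq0 _) (hkerq _) aug aug_a N hN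

end Abs

theorem YD.aug_alg {K : Type} [Field K] {s : ℕ} {B : Type} [CommRing B] [CharP B 2] [Algebra K B]
    (Y : YD K s B) (c : K) : Y.aug (algebraMap K Y.RR c) = c := by
  change Y.π0 (Y.ev (algebraMap K Y.RR c)).1 = c
  rw [Algebra.algebraMap_eq_smul_one, map_smul]
  change Y.π0 (c • (1 : B)) = c
  rw [← Algebra.algebraMap_eq_smul_one, Y.π0_alg]

theorem YD.main {K : Type} [Field K] {s : ℕ} {B : Type} [CommRing B] [CharP B 2] [Algebra K B]
    [FiniteDimensional K B] (Y : YD K s B) :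
    ∃ (A : Type) (_ : Ring A) (_ : Algebra K A)
    (_ : FiniteDimensional K A) (S : Fin 2 → ModuleCat.{0} A),
    (∀ i, IsSimpleModule A (S i)) ∧ (∀ i j, Nonempty (S i ≃ₗ[A] S j) → i = j) ∧
    (∀ M : ModuleCat.{0} A, IsSimpleModule A M → ∃ i, Nonempty (M ≃ₗ[A] S i)) ∧
    (∀ m, m ≤ s + 1 → PP A m) ∧ ¬ (∀ m, PP A m) := by
  obtain ⟨N, hN⟩ := Y.u_per
  have hper : Y.a (N + 1) = Y.a 0 := by
    have : Y.u (N + 1) = Y.u 0 := by rw [Y.u_zero]; exact hN
    rw [YD.a, YD.a, this]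
  exact main_abs (R := Y.RR) Y.a s Y.lam Y.hlam Y.haa Y.hii Y.aug Y.aug_alg Y.aug_a Y.F Y.F_zero Y.F_one
    Y.F_mul Y.F_anti (Y.D + 2) Y.F_top N hper

end Pool.Agent.helper67DE
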