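import Pool.Graph.R_seed8.H546R3.YamSimple

set_option autoImplicit false

namespace Pool.Agent.helper67DE

open Pool.Agent.H546R3.Yam

/-- previous-degree projection -/
def prP {K : Type} [Field K] {B : Type} [AddCommGroup B] [Module K B] (pr : ℕ → B →ₗ[K] B) (c : ℕ) :
    B →ₗ[K] B :=
  match c with
  | 0 => 0
  | c + 1 => pr c

/-- the partial sums `u_j = η + τ η + ... + τ^{j-1} η` -/
def uu {K : Type} [Field K] {B : Type} [CommRing B] [Algebra K B] (τ : B ≃ₐ[K] B) (η : B) (j : ℕ) : B :=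
  ∑ i ∈ Finset.range j, (τ ^ i) η

/-- data of a graded commutative algebra with derivation -/
structure YD (K : Type) [Field K] (s : ℕ) (B : Type) [CommRing B] [Algebra K B] where
  D : ℕ
  pr : ℕ → B →ₗ[K] B
  pr_same : ∀ i x, pr i (pr i x) = pr i x
  pr_ne : ∀ i j x, i ≠ j → pr i (pr j x) = 0
  pr_big : ∀ i x, D < i → pr i x = 0
  pr_sum : ∀ x, ∑ c ∈ Finset.range (D + 1), pr c x = x
  pr_mul : ∀ i j x y, pr i x = x → pr j y = y → pr (i + j) (x * y) = x * y
  π0 : B →+* K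
  π0_alg : ∀ t, π0 (algebraMap K B t) = t
  pr_zero : ∀ x, pr 0 x = algebraMap K B (π0 x)
  π0_pr : ∀ c x, π0 (pr (c + 1) x) = 0
  τ : B ≃ₐ[K] B
  pr_τ : ∀ c x, pr c (τ x) = τ (pr c x)
  η : B
  pr_η : pr 1 η = η
  d : B →ₗ[K] B
  d_mul : ∀ x y, d (x * y) = d x * y + x * d y
  dd : ∀ x, d (d x) = 0
  d_pr : ∀ c x, pr (c + 1) (d x) = d (pr c x)
  d_pr0 : ∀ x, pr 0 (d x) = 0
  d_τ : ∀ x, d (τ x) = τ (d x)
  d_η : d η = η * η
  u_per : ∃ N, uu τ η (N + 1) = 0
  acy : ∀ J c y, 1 ≤ J → J < s → pr c y = y → d y + (uu τ η J + uu τ η c) * y = 0 →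
    ∃ w, prP pr c w = w ∧ d w + (uu τ η J + uu τ η c) * w = y
  μ : B →ₗ[K] K
  frob : ∀ c, c ≤ D → ∀ y, (∀ a, pr c a = a → μ (a * y) = 0) → pr (D - c) y = 0

namespace YD

variable {K : Type} [Field K] {s : ℕ} {B : Type} [CommRing B] [CharP B 2] [Algebra K B] (Y : YD K s B)

omit Y in
theorem two_zero : (2 : B) = 0 := CharTwo.two_eq_zero

omit Y in
theorem add_self (x : B) : x + x = 0 := by
  linear_combination x * (two_zero : (2 : B) = 0)

omit Y in
theorem neg_eq (x : B) : -x = x := by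
  linear_combination -x * (two_zero : (2 : B) = 0)

omit Y in
theorem eq_of_add (x y : B) (h : x + y = 0) : x = y := by
  linear_combination h - y * (two_zero : (2 : B) = 0)

theorem d_one : Y.d 1 = 0 := by
  have := Y.d_mul 1 1
  rw [mul_one, mul_one, one_mul] at this
  linear_combination -this

theorem pr_one : Y.pr 0 1 = 1 := by
  rw [Y.pr_zero, map_one, map_one]

theorem pr_of_ne {i j : ℕ} {x : B} (hx : Y.pr j x = x) (h : i ≠ j) : Y.pr i x = 0 := by
  rw [← hx]; exact Y.pr_ne i j x h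

theorem pr_mul_left {i : ℕ} {x : B} (hx : Y.pr i x = x) (j : ℕ) (y : B) :
    Y.pr (i + j) (x * y) = x * Y.pr j y := by
  conv_lhs => rw [← Y.pr_sum y]
  rw [Finset.mul_sum, map_sum]
  have h : ∀ c ∈ Finset.range (Y.D + 1), Y.pr (i + j) (x * Y.pr c y) =
      if c = j then x * Y.pr j y else 0 := by
    intro c _
    have h1 := Y.pr_mul i c x (Y.pr c y) hx (Y.pr_same c y)
    by_cases hc : c = j
    · subst hc; rw [if_pos rfl, h1]
    · rw [if_neg hc]
      exact Y.pr_of_ne h1 (by omega)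
  rw [Finset.sum_congr rfl h, Finset.sum_ite_eq']
  split_ifs with h2
  · rfl
  · rw [Finset.mem_range, not_lt] at h2
    rw [Y.pr_big j y (by omega), mul_zero]

theorem pr_mul_lt {i : ℕ} {x : B} (hx : Y.pr i x = x) (c : ℕ) (hc : c < i) (y : B) :
    Y.pr c (x * y) = 0 := by
  conv_lhs => rw [← Y.pr_sum y]
  rw [Finset.mul_sum, map_sum]
  apply Finset.sum_eq_zero
  intro c' _
  exact Y.pr_of_ne (Y.pr_mul i c' x (Y.pr c' y) hx (Y.pr_same c' y)) (by omega)

theorem prP_mul_left {i : ℕ} {x : B} (hx : Y.pr i x = x) (j : ℕ) (y : B) :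
    prP Y.pr (i + j) (x * y) = x * prP Y.pr j y := by
  cases j with
  | zero =>
    change prP Y.pr i (x * y) = x * 0
    rw [mul_zero]
    cases i with
    | zero => rfl
    | succ i => exact Y.pr_mul_lt hx i (Nat.lt_succ_self i) y
  | succ j => exact Y.pr_mul_left hx j y

theorem pr_mul_leftP {i : ℕ} {x : B} (hx : prP Y.pr i x = x) (j : ℕ) (y : B) :
    Y.pr (i + j) (x * y) = x * Y.pr (j + 1) y := by
  cases i with
  | zero =>
    have : x = 0 := hx.symm
    subst this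
    simp
  | succ i =>
    rw [show i + 1 + j = i + (j + 1) by ring]
    exact Y.pr_mul_left hx (j + 1) y

theorem prP_mul_leftP {i : ℕ} {x : B} (hx : prP Y.pr i x = x) (j : ℕ) (y : B) :
    prP Y.pr (i + j) (x * y) = x * Y.pr j y := by
  cases i with
  | zero =>
    have : x = 0 := hx.symm
    subst this
    simp
  | succ i =>
    rw [show i + 1 + j = (i + j) + 1 by ring]
    exact Y.pr_mul_left hx j y

theorem prP_mul_lt {i : ℕ} {x : B} (hx : Y.pr i x = x) (c : ℕ) (hc : c < i) (y : B) :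
    prP Y.pr c (x * y) = 0 := by
  cases c with
  | zero => rfl
  | succ c => exact Y.pr_mul_lt hx c (by omega) y

theorem pr_mul_ltP {i : ℕ} {x : B} (hx : prP Y.pr i x = x) (c : ℕ) (hc : c < i) (y : B)
    (hy : Y.pr 0 y = 0) : Y.pr c (x * y) = 0 := by
  cases i with
  | zero => omega
  | succ i =>
    have hx' : Y.pr i x = x := hx
    rcases Nat.lt_or_ge c i with h | h
    · exact Y.pr_mul_lt hx' c h y
    · have : c = i + 0 := by omega
      rw [this, Y.pr_mul_left hx', hy, mul_zero]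

theorem prP_mul_ltP {i : ℕ} {x : B} (hx : prP Y.pr i x = x) (c : ℕ) (hc : c < i) (y : B) :
    prP Y.pr c (x * y) = 0 := by
  cases i with
  | zero => omega
  | succ i =>
    cases c with
    | zero => rfl
    | succ c => exact Y.pr_mul_lt hx c (by omega) y

theorem d_prP (j : ℕ) (y : B) : Y.pr j (Y.d y) = Y.d (prP Y.pr j y) := by
  cases j with
  | zero =>
    rw [Y.d_pr0]
    change 0 = Y.d 0
    rw [map_zero]
  | succ j => exact Y.d_pr j y

/-- the operator `T` -/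
def T : Module.End K (B × B) where
  toFun x := (Y.τ x.1 + Y.η * Y.τ x.2, Y.τ x.2)
  map_add' := by
    intro x y
    apply Prod.ext
    · simp only [Prod.fst_add, Prod.snd_add, map_add]; ring
    · simp
  map_smul' := by
    intro c x
    apply Prod.ext
    · simp
    · simp

/-- left multiplication operator in `B[ε; d]` -/
def L : (B × B) →ₗ[K] Module.End K (B × B) where
  toFun x :=
    { toFun := fun y => (x.1 * y.1 + x.2 * Y.d y.1, x.1 * y.2 + x.2 * y.1 + x.2 * Y.d y.2)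
      map_add' := by
        intro y z
        apply Prod.ext
        · simp only [Prod.fst_add, map_add]; ring
        · simp only [Prod.fst_add, Prod.snd_add, map_add]; ring
      map_smul' := by
        intro c y
        apply Prod.ext
        · simp
        · simp }
  map_add' := by
    intro x y
    apply LinearMap.ext
    intro z
    apply Prod.ext
    · change (x.1 + y.1) * z.1 + (x.2 + y.2) * Y.d z.1 = _
      change _ = (x.1 * z.1 + x.2 * Y.d z.1) + (y.1 * z.1 + y.2 * Y.d z.1)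
      ring
    · change (x.1 + y.1) * z.2 + (x.2 + y.2) * z.1 + (x.2 + y.2) * Y.d z.2 = _
      change _ = (x.1 * z.2 + x.2 * z.1 + x.2 * Y.d z.2) + (y.1 * z.2 + y.2 * z.1 + y.2 * Y.d z.2)
      ring
  map_smul' := by
    intro c x
    apply LinearMap.ext
    intro z
    apply Prod.ext
    · simp
    · simp

theorem T_fst (x : B × B) : (Y.T x).1 = Y.τ x.1 + Y.η * Y.τ x.2 := rfl
theorem T_snd (x : B × B) : (Y.T x).2 = Y.τ x.2 := rfl
theorem L_fst (x y : B × B) : (Y.L x y).1 = x.1 * y.1 + x.2 * Y.d y.1 := rfl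
theorem L_snd (x y : B × B) : (Y.L x y).2 = x.1 * y.2 + x.2 * y.1 + x.2 * Y.d y.2 := rfl

/-- inverse of `T` -/
def Ti (x : B × B) : B × B := (Y.τ.symm (x.1 + Y.η * x.2), Y.τ.symm x.2)

theorem T_Ti (x : B × B) : Y.T (Y.Ti x) = x := by
  apply Prod.ext
  · rw [T_fst]
    simp only [Ti, AlgEquiv.apply_symm_apply]
    linear_combination (Y.η * x.2) * (two_zero : (2 : B) = 0)
  · rw [T_snd]
    simp [Ti]

theorem T_inj {x y : B × B} (h : Y.T x = Y.T y) : x = y := by
  have h2 : x.2 = y.2 := Y.τ.injective (congrArg Prod.snd h)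
  have h1 := congrArg Prod.fst h
  rw [T_fst, T_fst, h2] at h1
  exact Prod.ext (Y.τ.injective (add_right_cancel h1)) h2

theorem T_L (x y : B × B) : Y.T (Y.L x y) = Y.L (Y.T x) (Y.T y) := by
  apply Prod.ext
  · rw [T_fst, L_fst, L_snd, L_fst, T_fst, T_fst, T_snd]
    simp only [map_add, map_mul, Y.d_mul, Y.d_τ, Y.d_η]
    linear_combination (-(Y.η * Y.η * Y.τ x.2 * Y.τ y.2)) * (two_zero : (2 : B) = 0)
  · rw [T_snd, L_snd, L_snd, T_fst, T_fst, T_snd, T_snd]
    simp only [map_add, map_mul, Y.d_τ]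
    linear_combination (-(Y.η * Y.τ x.2 * Y.τ y.2)) * (two_zero : (2 : B) = 0)

theorem L_L (x y z : B × B) : Y.L x (Y.L y z) = Y.L (Y.L x y) z := by
  apply Prod.ext
  · simp only [L_fst, L_snd, map_add, Y.d_mul, Y.dd]
    ring
  · simp only [L_fst, L_snd, map_add, Y.d_mul, Y.dd]
    linear_combination (y.2 * x.2 * Y.d z.1) * (two_zero : (2 : B) = 0)

theorem L_one_left (y : B × B) : Y.L (1, 0) y = y := by
  apply Prod.ext
  · simp [L_fst]
  · simp [L_snd]

theorem L_one_right (x : B × B) : Y.L x (1, 0) = x := by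
  apply Prod.ext
  · simp [L_fst, Y.d_one]
  · simp [L_snd]

theorem T_one : Y.T (1, 0) = (1, 0) := by
  apply Prod.ext
  · simp [T_fst]
  · simp [T_snd]

theorem Tpow_one (c : ℕ) : (Y.T ^ c) (1, 0) = (1, 0) := by
  induction c with
  | zero => rfl
  | succ c ih => rw [pow_succ, Module.End.mul_apply, T_one, ih]

theorem Tpow_L (i : ℕ) (x y : B × B) : (Y.T ^ i) (Y.L x y) = Y.L ((Y.T ^ i) x) ((Y.T ^ i) y) := by
  induction i with
  | zero => rfl
  | succ i ih =>
    rw [pow_succ', Module.End.mul_apply, Module.End.mul_apply, Module.End.mul_apply, ih, T_L]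

/-- graded projections on `V` -/
def prV (c : ℕ) : Module.End K (B × B) := LinearMap.prodMap (Y.pr c) (prP Y.pr c)

theorem prV_fst (c : ℕ) (x : B × B) : (Y.prV c x).1 = Y.pr c x.1 := rfl
theorem prV_snd (c : ℕ) (x : B × B) : (Y.prV c x).2 = prP Y.pr c x.2 := rfl

theorem prP_same (i : ℕ) (x : B) : prP Y.pr i (prP Y.pr i x) = prP Y.pr i x := by
  cases i with
  | zero => rfl
  | succ i => exact Y.pr_same i x

theorem prP_ne (i j : ℕ) (x : B) (h : i ≠ j) : prP Y.pr i (prP Y.pr j x) = 0 := by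
  cases i with
  | zero => rfl
  | succ i =>
    cases j with
    | zero => exact map_zero _
    | succ j => exact Y.pr_ne i j x (by omega)

theorem prV_same (i : ℕ) (x : B × B) : Y.prV i (Y.prV i x) = Y.prV i x :=
  Prod.ext (Y.pr_same i x.1) (Y.prP_same i x.2)

theorem prV_ne (i j : ℕ) (x : B × B) (h : i ≠ j) : Y.prV i (Y.prV j x) = 0 :=
  Prod.ext (Y.pr_ne i j x.1 h) (Y.prP_ne i j x.2 h)

theorem prV_of_ne {i j : ℕ} {x : B × B} (hx : Y.prV j x = x) (h : i ≠ j) : Y.prV i x = 0 := by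
  rw [← hx]; exact Y.prV_ne i j x h

theorem prV_big (i : ℕ) (x : B × B) (h : Y.D + 1 < i) : Y.prV i x = 0 := by
  apply Prod.ext
  · exact Y.pr_big i x.1 (by omega)
  · cases i with
    | zero => rfl
    | succ i => exact Y.pr_big i x.2 (by omega)

theorem prV_sum (x : B × B) : ∑ c ∈ Finset.range (Y.D + 2), Y.prV c x = x := by
  apply Prod.ext
  · rw [Prod.fst_sum, Finset.sum_range_succ]
    simp only [prV_fst]
    rw [Y.pr_sum, Y.pr_big _ _ (Nat.lt_succ_self _), add_zero]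
  · rw [Prod.snd_sum, Finset.sum_range_succ']
    simp only [prV_snd]
    change (∑ c ∈ Finset.range (Y.D + 1), Y.pr c x.2) + 0 = x.2
    rw [Y.pr_sum, add_zero]

theorem pr_η_mul (c : ℕ) (y : B) : Y.pr c (Y.η * y) = Y.η * prP Y.pr c y := by
  cases c with
  | zero =>
    rw [Y.pr_mul_lt Y.pr_η 0 Nat.one_pos]
    change 0 = Y.η * 0
    rw [mul_zero]
  | succ c =>
    rw [Nat.add_comm c 1, Y.pr_mul_left Y.pr_η, Nat.add_comm 1 c]
    rfl

theorem prP_τ (c : ℕ) (x : B) : prP Y.pr c (Y.τ x) = Y.τ (prP Y.pr c x) := by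
  cases c with
  | zero =>
    change 0 = Y.τ 0
    rw [map_zero]
  | succ c => exact Y.pr_τ c x

theorem prV_T (c : ℕ) (x : B × B) : Y.prV c (Y.T x) = Y.T (Y.prV c x) := by
  apply Prod.ext
  · rw [prV_fst, T_fst, T_fst, prV_fst, prV_snd, map_add, Y.pr_τ, Y.pr_η_mul, Y.prP_τ]
  · rw [prV_snd, T_snd, T_snd, prV_snd, Y.prP_τ]

theorem prV_Tpow (i c : ℕ) (x : B × B) : Y.prV c ((Y.T ^ i) x) = (Y.T ^ i) (Y.prV c x) := by
  induction i with
  | zero => rfl
  | succ i ih => rw [pow_succ', Module.End.mul_apply, Module.End.mul_apply, prV_T, ih]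

theorem prV_L {i : ℕ} {x : B × B} (hx : Y.prV i x = x) (j : ℕ) (y : B × B) :
    Y.prV (i + j) (Y.L x y) = Y.L x (Y.prV j y) := by
  have h1 : Y.pr i x.1 = x.1 := congrArg Prod.fst hx
  have h2 : prP Y.pr i x.2 = x.2 := congrArg Prod.snd hx
  apply Prod.ext
  · rw [prV_fst, L_fst, L_fst, prV_fst, map_add, Y.pr_mul_left h1, Y.pr_mul_leftP h2, Y.d_pr]
  · rw [prV_snd, L_snd, L_snd, prV_fst, prV_snd, map_add, map_add, Y.prP_mul_left h1,
      Y.prP_mul_leftP h2, Y.prP_mul_leftP h2, Y.d_prP]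

theorem prV_L_lt {i : ℕ} {x : B × B} (hx : Y.prV i x = x) (c : ℕ) (hc : c < i) (y : B × B) :
    Y.prV c (Y.L x y) = 0 := by
  have h1 : Y.pr i x.1 = x.1 := congrArg Prod.fst hx
  have h2 : prP Y.pr i x.2 = x.2 := congrArg Prod.snd hx
  apply Prod.ext
  · rw [prV_fst, L_fst, map_add, Y.pr_mul_lt h1 c hc, Y.pr_mul_ltP h2 c hc _ (Y.d_pr0 _), add_zero]
    rfl
  · rw [prV_snd, L_snd, map_add, map_add, Y.prP_mul_lt h1 c hc, Y.prP_mul_ltP h2 c hc,
      Y.prP_mul_ltP h2 c hc, add_zero, add_zero]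
    rfl

/-- the twisted left multiplication -/
def Phi : (B × B) →ₗ[K] Module.End K (B × B) :=
  ∑ c ∈ Finset.range (Y.D + 2),
    (LinearMap.mulRight K (Y.T ^ c)).comp (Y.L.comp (Y.prV c))

theorem Phi_apply (x y : B × B) :
    Y.Phi x y = ∑ c ∈ Finset.range (Y.D + 2), Y.L (Y.prV c x) ((Y.T ^ c) y) := by
  simp [Phi, LinearMap.sum_apply]

theorem Phi_hom {i : ℕ} {x : B × B} (hx : Y.prV i x = x) (y : B × B) :
    Y.Phi x y = Y.L x ((Y.T ^ i) y) := by
  rw [Phi_apply]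
  have h : ∀ c ∈ Finset.range (Y.D + 2), Y.L (Y.prV c x) ((Y.T ^ c) y) =
      if c = i then Y.L x ((Y.T ^ i) y) else 0 := by
    intro c _
    by_cases hc : c = i
    · subst hc; rw [if_pos rfl, hx]
    · rw [if_neg hc, Y.prV_of_ne hx hc, map_zero, LinearMap.zero_apply]
  rw [Finset.sum_congr rfl h, Finset.sum_ite_eq']
  split_ifs with h2
  · rfl
  · rw [Finset.mem_range, not_lt] at h2
    rw [← hx, Y.prV_big i x (by omega), map_zero, LinearMap.zero_apply]

theorem Phi_one_right (x : B × B) : Y.Phi x (1, 0) = x := by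
  rw [Phi_apply]
  simp only [Tpow_one, L_one_right]
  exact Y.prV_sum x

theorem Phi_one : Y.Phi (1, 0) = 1 := by
  apply LinearMap.ext
  intro y
  have h : Y.prV 0 ((1, 0) : B × B) = (1, 0) := Prod.ext (Y.pr_one) rfl
  rw [Y.Phi_hom h, Y.L_one_left]
  rfl

theorem Phi_mul (x y : B × B) : Y.Phi x * Y.Phi y = Y.Phi (Y.Phi x y) := by
  apply LinearMap.ext
  intro z
  rw [Module.End.mul_apply]
  -- homogeneous case
  have key : ∀ i j x y, Y.prV i x = x → Y.prV j y = y →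
      Y.Phi x (Y.Phi y z) = Y.Phi (Y.Phi x y) z := by
    intro i j x y hx hy
    rw [Y.Phi_hom hx, Y.Phi_hom hy, Y.Phi_hom hx]
    have h1 : Y.prV (i + j) (Y.L x ((Y.T ^ i) y)) = Y.L x ((Y.T ^ i) y) := by
      rw [Y.prV_L hx, Y.prV_Tpow, hy]
    rw [Y.Phi_hom h1, Y.Tpow_L, Y.L_L, pow_add, Module.End.mul_apply]
  have h2 : ∀ i x, Y.prV i x = x → Y.Phi x (Y.Phi y z) = Y.Phi (Y.Phi x y) z := by
    intro i x hx
    conv_lhs => rw [← Y.prV_sum y]
    conv_rhs => rw [← Y.prV_sum y]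
    simp only [map_sum, LinearMap.sum_apply]
    apply Finset.sum_congr rfl
    intro j _
    exact key i j x _ hx (Y.prV_same j y)
  conv_lhs => rw [← Y.prV_sum x]
  conv_rhs => rw [← Y.prV_sum x]
  simp only [map_sum, LinearMap.sum_apply]
  apply Finset.sum_congr rfl
  intro i _
  exact h2 i _ (Y.prV_same i x)

/-- the twisted algebra `R` -/
def RR : Subalgebra K (Module.End K (B × B)) where
  carrier := Set.range Y.Phi
  mul_mem' := by
    rintro _ _ ⟨x, rfl⟩ ⟨y, rfl⟩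
    exact ⟨_, (Y.Phi_mul x y).symm⟩
  add_mem' := by
    rintro _ _ ⟨x, rfl⟩ ⟨y, rfl⟩
    exact ⟨x + y, map_add _ _ _⟩
  algebraMap_mem' := by
    intro c
    refine ⟨c • (1, 0), ?_⟩
    rw [map_smul, Y.Phi_one, Algebra.algebraMap_eq_smul_one]

/-- evaluation at `1` -/
def ev : Y.RR →ₗ[K] (B × B) where
  toFun r := r.1 (1, 0)
  map_add' := by intro a b; rfl
  map_smul' := by intro c a; rfl

/-- element of `R` attached to a vector -/
def mkR : (B × B) →ₗ[K] Y.RR where
  toFun x := ⟨Y.Phi x, x, rfl⟩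
  map_add' := by intro a b; apply Subtype.ext; exact map_add _ _ _
  map_smul' := by intro c a; apply Subtype.ext; exact map_smul _ _ _

theorem ev_mkR (x : B × B) : Y.ev (Y.mkR x) = x := Y.Phi_one_right x

theorem mkR_ev (r : Y.RR) : Y.mkR (Y.ev r) = r := by
  obtain ⟨_, x, rfl⟩ := r
  apply Subtype.ext
  change Y.Phi (Y.Phi x (1, 0)) = Y.Phi x
  rw [Y.Phi_one_right]

theorem ev_inj {r r' : Y.RR} (h : Y.ev r = Y.ev r') : r = r' := by
  rw [← Y.mkR_ev r, h, Y.mkR_ev]

theorem ev_mul (r r' : Y.RR) : Y.ev (r * r') = Y.Phi (Y.ev r) (Y.ev r') := by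
  have h : r.1 = Y.Phi (Y.ev r) := (congrArg Subtype.val (Y.mkR_ev r)).symm
  change r.1 (r'.1 (1, 0)) = _
  rw [h]
  rfl

end YD

end Pool.Agent.helper67DE
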